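import Mathlib

/-!
MP_85fd23_an, superreflexive spaces.  A Lipschitz function which is uniformly close to affine in the
sense that
`|G x - l G (x + (1 - l) h) - (1 - l) G (x - l h)| ≤ 2 l (1 - l) ε N h` for `N h ≤ τ ε`
(all `ε > 0`, `0 ≤ l ≤ 1`) is of class `C^1`.
-/

open Filter Topology

namespace Pool.Agent.MP_85fd23_an.SR

variable {E : Type*} [NormedAddCommGroup E] [NormedSpace ℝ E]

/-- Two-sided estimate. -/
def Two (N : E → ℝ) (τ : ℝ → ℝ) (G : E → ℝ) : Prop :=
  ∀ ε > 0, ∀ h, N h ≤ τ ε → ∀ l : ℝ, 0 ≤ l → l ≤ 1 → ∀ x,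
    |G x - (l * G (x + (1 - l) • h) + (1 - l) * G (x - l • h))| ≤ 2 * l * (1 - l) * ε * N h

/-- difference quotients -/
noncomputable def dq (G : E → ℝ) (x h : E) (n : ℕ) : ℝ :=
  2 ^ n * (G (x + (1 / 2 : ℝ) ^ n • h) - G x)

section

variable {N : E → ℝ} {τ : ℝ → ℝ} {G : E → ℝ} {a b L : ℝ}
  (hsm : ∀ (r : ℝ) x, N (r • x) = |r| * N x) (ha : 0 < a) (hb : 0 ≤ b)
  (hNa : ∀ x, a * ‖x‖ ≤ N x) (hNb : ∀ x, N x ≤ b * ‖x‖)
  (hτ : ∀ ε > 0, 0 < τ ε) (hG : Two N τ G) (hL : 0 ≤ L) (hLip : ∀ x y, |G x - G y| ≤ L * ‖x - y‖)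

include hsm ha hNa hG in
/-- The quotients at the scales `2^-n ≥ 2^-m` differ by at most `2 ε N h`. -/
theorem dq_close {ε : ℝ} (hε : 0 < ε) {h x : E} {n m : ℕ} (hnm : n ≤ m)
    (hn : (1 / 2 : ℝ) ^ n * N h ≤ τ ε) : |dq G x h m - dq G x h n| ≤ 2 * ε * N h := by
  have hN0 : 0 ≤ N h := (mul_nonneg ha.le (norm_nonneg h)).trans (hNa h)
  obtain ⟨k, rfl⟩ := Nat.exists_eq_add_of_le hnm
  set l : ℝ := (1 / 2 : ℝ) ^ k with hl
  have hl0 : 0 < l := by positivity
  have hl1 : l ≤ 1 := pow_le_one₀ (by norm_num) (by norm_num)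
  set w : E := (1 / 2 : ℝ) ^ n • h with hw
  have hNw : N w = (1 / 2 : ℝ) ^ n * N h := by
    rw [hw, hsm, abs_of_pos (by positivity)]
  have key := hG ε hε w (by rw [hNw]; exact hn) l hl0.le hl1 (x + l • w)
  have e1 : x + l • w + (1 - l) • w = x + w := by
    rw [add_assoc, ← add_smul]; simp
  have e2 : x + l • w - l • w = x := by simp
  rw [e1, e2, hNw] at key
  have e3 : dq G x h (n + k) = 2 ^ n * (G (x + l • w) - G x) / l := by
    unfold dq
    have e4 : (1 / 2 : ℝ) ^ (n + k) • h = l • w := by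
      rw [hw, hl, smul_smul, pow_add, mul_comm]
    have e5 : (2 : ℝ) ^ k * l = 1 := by
      rw [hl, ← mul_pow]; norm_num
    rw [e4, pow_add, eq_div_iff hl0.ne']
    linear_combination (2 : ℝ) ^ n * (G (x + l • w) - G x) * e5
  have e6 : dq G x h n = 2 ^ n * (G (x + w) - G x) := rfl
  rw [e3, e6]
  have e7 : 2 ^ n * (G (x + l • w) - G x) / l - 2 ^ n * (G (x + w) - G x) =
      2 ^ n / l * (G (x + l • w) - (l * G (x + w) + (1 - l) * G x)) := by
    field_simp
    ring
  rw [e7, abs_mul, abs_of_pos (by positivity : (0 : ℝ) < 2 ^ n / l)]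
  have e8 : (2 : ℝ) ^ n * (1 / 2 : ℝ) ^ n = 1 := by
    rw [← mul_pow]; norm_num
  calc 2 ^ n / l * |G (x + l • w) - (l * G (x + w) + (1 - l) * G x)|
      ≤ 2 ^ n / l * (2 * l * (1 - l) * ε * ((1 / 2) ^ n * N h)) := by gcongr
    _ = 2 * (1 - l) * ε * N h * (2 ^ n * (1 / 2) ^ n) := by
        field_simp
    _ = 2 * (1 - l) * ε * N h := by rw [e8, mul_one]
    _ ≤ 2 * ε * N h := by
        have : 0 ≤ l * (ε * N h) := by positivity
        nlinarith

include hLip in
theorem dq_bound (x h : E) (n : ℕ) : |dq G x h n| ≤ L * ‖h‖ := by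
  unfold dq
  rw [abs_mul, abs_of_pos (by positivity : (0 : ℝ) < 2 ^ n)]
  have h1 := hLip (x + (1 / 2 : ℝ) ^ n • h) x
  rw [add_sub_cancel_left, norm_smul, Real.norm_of_nonneg (by positivity)] at h1
  have e8 : (2 : ℝ) ^ n * (1 / 2 : ℝ) ^ n = 1 := by
    rw [← mul_pow]; norm_num
  calc 2 ^ n * |G (x + (1 / 2 : ℝ) ^ n • h) - G x|
      ≤ 2 ^ n * (L * ((1 / 2) ^ n * ‖h‖)) := by gcongr
    _ = L * ‖h‖ * (2 ^ n * (1 / 2) ^ n) := by ring
    _ = L * ‖h‖ := by rw [e8, mul_one]

theorem small_scale (c : ℝ) {t : ℝ} (ht : 0 < t) : ∀ᶠ n : ℕ in atTop, (1 / 2 : ℝ) ^ n * c ≤ t := by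
  have h1 : Tendsto (fun n : ℕ => (1 / 2 : ℝ) ^ n * c) atTop (𝓝 (0 * c)) :=
    (tendsto_pow_atTop_nhds_zero_of_lt_one (by norm_num) (by norm_num)).mul_const c
  rw [zero_mul] at h1
  exact (h1.eventually (ge_mem_nhds ht)).mono fun n hn => hn

include hsm ha hNa hτ hG in
theorem dq_cauchy (x h : E) : ∃ d : ℝ, Tendsto (dq G x h) atTop (𝓝 d) := by
  have hN0 : 0 ≤ N h := (mul_nonneg ha.le (norm_nonneg h)).trans (hNa h)
  refine cauchySeq_tendsto_of_complete ?_
  rw [Metric.cauchySeq_iff']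
  intro ε hε
  have hε' : 0 < ε / (4 * (N h + 1)) := by positivity
  obtain ⟨n, hn⟩ := (small_scale (N h) (hτ _ hε')).exists
  refine ⟨n, fun m hm => ?_⟩
  rw [Real.dist_eq]
  refine lt_of_le_of_lt (dq_close hsm ha hNa hG hε' hm hn) ?_
  have e1 : 2 * (ε / (4 * (N h + 1))) * N h = ε * (N h / (N h + 1)) / 2 := by
    field_simp
    ring
  rw [e1]
  have e2 : N h / (N h + 1) ≤ 1 := by
    rw [div_le_one (by positivity)]; linarith
  nlinarith

/-- the directional derivative -/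
noncomputable def dd (G : E → ℝ) (x h : E) : ℝ := limUnder atTop (dq G x h)

include hsm ha hNa hτ hG in
theorem dd_tendsto (x h : E) : Tendsto (dq G x h) atTop (𝓝 (dd G x h)) :=
  tendsto_nhds_limUnder (dq_cauchy hsm ha hNa hτ hG x h)

include hsm ha hNa hτ hG in
/-- Uniform first order expansion. -/
theorem dd_taylor {ε : ℝ} (hε : 0 < ε) {h : E} (hh : N h ≤ τ ε) (x : E) :
    |G (x + h) - G x - dd G x h| ≤ 2 * ε * N h := by
  have h1 : ∀ m, |dq G x h m - (G (x + h) - G x)| ≤ 2 * ε * N h := by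
    intro m
    have := dq_close (G := G) (τ := τ) hsm ha hNa hG hε (x := x) (Nat.zero_le m)
      (by simpa using hh)
    have e : dq G x h 0 = G (x + h) - G x := by simp [dq]
    rwa [e] at this
  have h2 : Tendsto (fun m => |dq G x h m - (G (x + h) - G x)|) atTop
      (𝓝 |dd G x h - (G (x + h) - G x)|) :=
    ((dd_tendsto hsm ha hNa hτ hG x h).sub_const _).abs
  rw [abs_sub_comm]
  exact le_of_tendsto h2 (Eventually.of_forall h1)

include hsm ha hNa hτ hG in
theorem dd_add (x h k : E) : dd G x (h + k) = dd G x h + dd G x k := by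
  have t1 := dd_tendsto hsm ha hNa hτ hG x (h + k)
  have t2 := dd_tendsto hsm ha hNa hτ hG x h
  have t3 := dd_tendsto hsm ha hNa hτ hG x k
  have t4 : Tendsto (fun n => |dq G x (h + k) (n + 1) - dq G x h n - dq G x k n|) atTop
      (𝓝 |dd G x (h + k) - dd G x h - dd G x k|) :=
    (((t1.comp (tendsto_add_atTop_nat 1)).sub t2).sub t3).abs
  have hN0 : 0 ≤ N (h - k) := (mul_nonneg ha.le (norm_nonneg _)).trans (hNa _)
  have key : ∀ ε > 0, |dd G x (h + k) - dd G x h - dd G x k| ≤ ε * N (h - k) := by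
    intro ε hε
    refine le_of_tendsto t4 ?_
    filter_upwards [small_scale (N (h - k)) (hτ ε hε)] with n hn
    set w : E := (1 / 2 : ℝ) ^ n • (h - k) with hw
    have hNw : N w = (1 / 2 : ℝ) ^ n * N (h - k) := by
      rw [hw, hsm, abs_of_pos (by positivity)]
    have k1 := hG ε hε w (by rw [hNw]; exact hn) (1 / 2) (by norm_num) (by norm_num)
      (x + (1 / 2 : ℝ) ^ (n + 1) • (h + k))
    have e1 : x + (1 / 2 : ℝ) ^ (n + 1) • (h + k) + (1 - 1 / 2 : ℝ) • w =
        x + (1 / 2 : ℝ) ^ n • h := by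
      rw [hw, pow_succ]
      module
    have e2 : x + (1 / 2 : ℝ) ^ (n + 1) • (h + k) - (1 / 2 : ℝ) • w =
        x + (1 / 2 : ℝ) ^ n • k := by
      rw [hw, pow_succ]
      module
    rw [e1, e2, hNw] at k1
    have e3 : dq G x (h + k) (n + 1) - dq G x h n - dq G x k n =
        2 ^ (n + 1) * (G (x + (1 / 2 : ℝ) ^ (n + 1) • (h + k)) -
          (1 / 2 * G (x + (1 / 2 : ℝ) ^ n • h) + (1 - 1 / 2) * G (x + (1 / 2 : ℝ) ^ n • k))) := by
      unfold dq
      rw [pow_succ (2 : ℝ) n]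
      ring
    rw [e3, abs_mul, abs_of_pos (by positivity : (0 : ℝ) < 2 ^ (n + 1))]
    have e8 : (2 : ℝ) ^ n * (1 / 2 : ℝ) ^ n = 1 := by
      rw [← mul_pow]; norm_num
    calc _ ≤ (2 : ℝ) ^ (n + 1) * (2 * (1 / 2) * (1 - 1 / 2) * ε * ((1 / 2) ^ n * N (h - k))) := by
          gcongr
      _ = ε * N (h - k) * (2 ^ n * (1 / 2) ^ n) := by rw [pow_succ]; ring
      _ = ε * N (h - k) := by rw [e8, mul_one]
  have hz : |dd G x (h + k) - dd G x h - dd G x k| ≤ 0 := by
    by_contra hcon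
    push Not at hcon
    have h1 := key (|dd G x (h + k) - dd G x h - dd G x k| / (2 * (N (h - k) + 1)))
      (by positivity)
    have e1 : |dd G x (h + k) - dd G x h - dd G x k| / (2 * (N (h - k) + 1)) * N (h - k) =
        |dd G x (h + k) - dd G x h - dd G x k| * (N (h - k) / (N (h - k) + 1)) / 2 := by
      field_simp
    rw [e1] at h1
    have e2 : N (h - k) / (N (h - k) + 1) ≤ 1 := by
      rw [div_le_one (by positivity)]; linarith
    nlinarith
  have := abs_nonpos_iff.1 hz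
  linarith

include hsm ha hNa hτ hG hLip in
theorem dd_bound (x h : E) : |dd G x h| ≤ L * ‖h‖ :=
  le_of_tendsto (dd_tendsto hsm ha hNa hτ hG x h).abs
    (Eventually.of_forall fun n => dq_bound hLip x h n)

include hsm ha hNa hτ hG hL hLip in
theorem exists_clm (x : E) : ∃ D : E →L[ℝ] ℝ, ∀ h, D h = dd G x h := by
  have hadd := dd_add (G := G) hsm ha hNa hτ hG x
  obtain ⟨f, hf⟩ : ∃ f : E →+ ℝ, ∀ h, f h = dd G x h :=
    ⟨AddMonoidHom.mk' (dd G x) hadd, fun _ => rfl⟩
  have hc : Continuous f := by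
    have : LipschitzWith (Real.toNNReal L) f := by
      refine LipschitzWith.of_dist_le_mul fun h k => ?_
      rw [Real.dist_eq, dist_eq_norm, Real.coe_toNNReal _ hL, ← map_sub, hf]
      exact dd_bound hsm ha hNa hτ hG hLip x (h - k)
    exact this.continuous
  exact ⟨f.toRealLinearMap hc, fun h => by simp [hf]⟩

include hsm ha hb hNa hNb hτ hG hL hLip in
/-- The function is of class `C^1`, the derivative is uniformly continuous. -/
theorem contDiff_of_two : ContDiff ℝ 1 G ∧ UniformContinuous (fderiv ℝ G) := by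
  choose D hD using exists_clm (G := G) hsm ha hNa hτ hG hL hLip
  have hder : ∀ x, HasFDerivAt G (D x) x := by
    intro x
    rw [hasFDerivAt_iff_isLittleO_nhds_zero, Asymptotics.isLittleO_iff]
    intro c hc
    have hε : 0 < c / (2 * (b + 1)) := by positivity
    have hev : ∀ᶠ h : E in 𝓝 0, b * ‖h‖ ≤ τ (c / (2 * (b + 1))) := by
      have h1 : Tendsto (fun h : E => b * ‖h‖) (𝓝 0) (𝓝 (b * ‖(0 : E)‖)) :=
        (continuous_const.mul continuous_norm).tendsto 0
      rw [norm_zero, mul_zero] at h1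
      exact (h1.eventually (ge_mem_nhds (hτ _ hε))).mono fun _ h => h
    filter_upwards [hev] with h hh
    have h1 := dd_taylor (G := G) hsm ha hNa hτ hG hε ((hNb h).trans hh) x
    rw [hD, Real.norm_eq_abs]
    refine h1.trans ?_
    have h2 := hNb h
    calc 2 * (c / (2 * (b + 1))) * N h ≤ 2 * (c / (2 * (b + 1))) * (b * ‖h‖) := by gcongr
      _ = c * ‖h‖ * (b / (b + 1)) := by field_simp
      _ ≤ c * ‖h‖ * 1 := by
          gcongr
          rw [div_le_one (by positivity)]; linarith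
      _ = c * ‖h‖ := mul_one _
  have hfd : fderiv ℝ G = D := funext fun x => (hder x).fderiv
  have huc : UniformContinuous (fderiv ℝ G) := by
    rw [hfd, Metric.uniformContinuous_iff]
    intro c hc
    set ε : ℝ := c / (8 * (b + 1)) with hε'
    have hε : 0 < ε := by positivity
    have ht := hτ ε hε
    set t := τ ε with ht'
    refine ⟨c * t / (8 * (b + 1) * (L + 1)), by positivity, fun y x hy => ?_⟩
    rw [dist_eq_norm] at hy ⊢
    refine lt_of_le_of_lt (ContinuousLinearMap.opNorm_le_bound _ (M := c / 2 + c / 4)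
      (by positivity) fun v => ?_) (by linarith)
    rcases eq_or_ne v 0 with rfl | hv
    · simp
    have hv0 : 0 < ‖v‖ := norm_pos_iff.2 hv
    have hNv : 0 < N v := lt_of_lt_of_le (by positivity) (hNa v)
    have hk : N ((t / N v) • v) = t := by
      rw [hsm, abs_of_pos (by positivity)]
      field_simp
    have k1 := dd_taylor (G := G) hsm ha hNa hτ hG hε (h := (t / N v) • v) (by rw [hk]) x
    have k2 := dd_taylor (G := G) hsm ha hNa hτ hG hε (h := (t / N v) • v) (by rw [hk]) y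
    rw [hk, ← hD] at k1 k2
    have k3 := hLip (y + (t / N v) • v) (x + (t / N v) • v)
    have k4 := hLip y x
    rw [add_sub_add_right_eq_sub] at k3
    have k5 : |(D y - D x) ((t / N v) • v)| ≤ 4 * ε * t + 2 * (L * ‖y - x‖) := by
      rw [sub_apply]
      rw [abs_le] at k1 k2 k3 k4 ⊢
      constructor <;> linarith [k1.1, k1.2, k2.1, k2.2, k3.1, k3.2, k4.1, k4.2]
    rw [map_smul, smul_eq_mul, abs_mul, abs_of_pos (by positivity : 0 < t / N v)] at k5
    rw [Real.norm_eq_abs]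
    have k6 : |(D y - D x) v| ≤ N v / t * (4 * ε * t + 2 * (L * ‖y - x‖)) := by
      rw [div_mul_eq_mul_div, le_div_iff₀ ht]
      rw [div_mul_eq_mul_div, div_le_iff₀ hNv] at k5
      linarith
    have k7 : L * ‖y - x‖ ≤ c * t / (8 * (b + 1)) := by
      have h1 : L * ‖y - x‖ ≤ (L + 1) * (c * t / (8 * (b + 1) * (L + 1))) := by
        gcongr
        linarith
      have h2 : (L + 1) * (c * t / (8 * (b + 1) * (L + 1))) = c * t / (8 * (b + 1)) := by
        field_simp
      linarith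
    have k8 : N v ≤ (b + 1) * ‖v‖ := by
      have := hNb v
      linarith
    calc |(D y - D x) v| ≤ N v / t * (4 * ε * t + 2 * (L * ‖y - x‖)) := k6
      _ ≤ N v / t * (4 * ε * t + 2 * (c * t / (8 * (b + 1)))) := by gcongr
      _ = N v * (3 * c / (4 * (b + 1))) := by
          rw [hε']
          field_simp
          ring
      _ ≤ (b + 1) * ‖v‖ * (3 * c / (4 * (b + 1))) := by gcongr
      _ = (c / 2 + c / 4) * ‖v‖ := by
          field_simp
          ring
  refine ⟨?_, huc⟩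
  rw [contDiff_one_iff_fderiv]
  exact ⟨fun x => (hder x).differentiableAt, huc.continuous⟩

end

end Pool.Agent.MP_85fd23_an.SR
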