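import Mathlib

/-!
MP_85fd23_an, superreflexive spaces.  Functions that are semiconvex with respect to a family of
constraints, and the largest semiconvex minorant of a function.
-/

namespace Pool.Agent.MP_85fd23_an.SR

variable {E : Type*} [NormedAddCommGroup E] [NormedSpace ℝ E]

/-- `u` satisfies the constraints `P`: if `P l h β`, then at every point `x` the value of `u` is at
most the average of the values at `x + (1 - l) h` and `x - l h` with weights `l`, `1 - l`,
plus `β`. -/
def SCx (P : ℝ → E → ℝ → Prop) (u : E → ℝ) : Prop :=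
  ∀ l h β, P l h β → ∀ x, u x ≤ l * u (x + (1 - l) • h) + (1 - l) * u (x - l • h) + β

/-- The converse inequalities. -/
def SCv (P : ℝ → E → ℝ → Prop) (u : E → ℝ) : Prop :=
  ∀ l h β, P l h β → ∀ x, l * u (x + (1 - l) • h) + (1 - l) * u (x - l • h) ≤ u x + β

theorem scx_neg {P : ℝ → E → ℝ → Prop} {u : E → ℝ} : SCx P (fun x => -u x) ↔ SCv P u := by
  constructor
  · intro h l k β hP x
    have := h l k β hP x
    simp only at this
    linarith
  · intro h l k β hP x
    have := h l k β hP x
    simp only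
    linarith

theorem scv_neg {P : ℝ → E → ℝ → Prop} {u : E → ℝ} : SCv P (fun x => -u x) ↔ SCx P u := by
  constructor
  · intro h l k β hP x
    have := h l k β hP x
    simp only at this
    linarith
  · intro h l k β hP x
    have := h l k β hP x
    simp only
    linarith

/-- The values at `x` of the minorants of `g` which satisfy the constraints. -/
def vals (P : ℝ → E → ℝ → Prop) (g : E → ℝ) (x : E) : Set ℝ :=
  {r | ∃ u : E → ℝ, SCx P u ∧ (∀ y, u y ≤ g y) ∧ u x = r}

/-- The largest minorant of `g` which satisfies the constraints. -/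
noncomputable def env (P : ℝ → E → ℝ → Prop) (g : E → ℝ) (x : E) : ℝ := sSup (vals P g x)

theorem bdd_vals (P : ℝ → E → ℝ → Prop) (g : E → ℝ) (x : E) : BddAbove (vals P g x) := by
  refine ⟨g x, ?_⟩
  rintro r ⟨u, -, hu, rfl⟩
  exact hu x

theorem le_env {P : ℝ → E → ℝ → Prop} {g u : E → ℝ} (hu : SCx P u) (hug : ∀ y, u y ≤ g y) (x : E) :
    u x ≤ env P g x := le_csSup (bdd_vals P g x) ⟨u, hu, hug, rfl⟩

section

variable {P : ℝ → E → ℝ → Prop} {g : E → ℝ} (hne : ∃ u : E → ℝ, SCx P u ∧ ∀ y, u y ≤ g y)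

include hne

theorem ne_vals (x : E) : (vals P g x).Nonempty := by
  obtain ⟨u, hu, hug⟩ := hne
  exact ⟨u x, u, hu, hug, rfl⟩

theorem env_le (x : E) : env P g x ≤ g x := by
  refine csSup_le (ne_vals hne x) ?_
  rintro r ⟨u, -, hu, rfl⟩
  exact hu x

theorem env_le_of {x : E} {c : ℝ} (h : ∀ u, SCx P u → (∀ y, u y ≤ g y) → u x ≤ c) :
    env P g x ≤ c := by
  refine csSup_le (ne_vals hne x) ?_
  rintro r ⟨u, hu, hug, rfl⟩
  exact h u hu hug

/-- The envelope satisfies the constraints. -/
theorem env_scx (hP : ∀ l h β, P l h β → 0 ≤ l ∧ l ≤ 1) : SCx P (env P g) := by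
  intro l h β hl x
  obtain ⟨h0, h1⟩ := hP l h β hl
  refine env_le_of hne ?_
  intro u hu hug
  have e1 := hu l h β hl x
  have e2 := mul_le_mul_of_nonneg_left (le_env hu hug (x + (1 - l) • h)) h0
  have e3 := mul_le_mul_of_nonneg_left (le_env hu hug (x - l • h)) (sub_nonneg.2 h1)
  linarith

/-- The envelope keeps all translation invariant bounds. -/
theorem env_shift {v : E} {m : ℝ} (h : ∀ x, g (x + v) ≤ g x + m) (x : E) :
    env P g (x + v) ≤ env P g x + m := by
  refine env_le_of hne ?_
  intro u hu hug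
  have h1 : SCx P (fun y => u (y + v) - m) := by
    intro l k β hl y
    have := hu l k β hl (y + v)
    simp only
    have e1 : y + v + (1 - l) • k = y + (1 - l) • k + v := by abel
    have e2 : y + v - l • k = y - l • k + v := by abel
    rw [e1, e2] at this
    nlinarith
  have h2 : ∀ y, u (y + v) - m ≤ g y := by
    intro y
    have := hug (y + v)
    linarith [h y]
  have := le_env h1 h2 x
  linarith

/-- The envelope keeps the converse inequalities. -/
theorem env_scv (hP : ∀ l h β, P l h β → 0 ≤ l ∧ l ≤ 1) (hg : SCv P g) : SCv P (env P g) := by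
  intro l h β hl x
  obtain ⟨h0, h1⟩ := hP l h β hl
  have hs := env_scx hne hP
  have key := le_env (P := P) (g := g)
    (u := fun y => l * env P g (y + (1 - l) • h) + (1 - l) * env P g (y - l • h) - β) ?_ ?_ x
  · linarith
  · intro l' k β' hl' y
    simp only
    have e1 := mul_le_mul_of_nonneg_left (hs l' k β' hl' (y + (1 - l) • h)) h0
    have e2 := mul_le_mul_of_nonneg_left (hs l' k β' hl' (y - l • h)) (sub_nonneg.2 h1)
    have a1 : y + (1 - l) • h + (1 - l') • k = y + (1 - l') • k + (1 - l) • h := by abel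
    have a2 : y + (1 - l) • h - l' • k = y - l' • k + (1 - l) • h := by abel
    have a3 : y - l • h + (1 - l') • k = y + (1 - l') • k - l • h := by abel
    have a4 : y - l • h - l' • k = y - l' • k - l • h := by abel
    rw [a1, a2] at e1
    rw [a3, a4] at e2
    nlinarith
  · intro y
    have e1 := mul_le_mul_of_nonneg_left (env_le hne (y + (1 - l) • h)) h0
    have e2 := mul_le_mul_of_nonneg_left (env_le hne (y - l • h)) (sub_nonneg.2 h1)
    have e3 := hg l h β hl y
    linarith

end

/-- Minorants from a kernel `ψ`. -/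
theorem scx_kernel {P : ℝ → E → ℝ → Prop} {ψ : E → ℝ} (hψ : SCv P ψ) (c : ℝ) (x₀ : E) :
    SCx P (fun x => c - ψ (x - x₀)) := by
  intro l h β hl x
  have := hψ l h β hl (x - x₀)
  simp only
  have e1 : x - x₀ + (1 - l) • h = x + (1 - l) • h - x₀ := by abel
  have e2 : x - x₀ - l • h = x - l • h - x₀ := by abel
  rw [e1, e2] at this
  nlinarith

theorem exists_minorant {P : ℝ → E → ℝ → Prop} {ψ g : E → ℝ} (hψ : SCv P ψ)
    (hg : ∀ x y, g x ≤ g y + ψ (y - x)) (x₀ : E) :
    SCx P (fun x => g x₀ - ψ (x - x₀)) ∧ ∀ y, g x₀ - ψ (y - x₀) ≤ g y := by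
  refine ⟨scx_kernel hψ _ _, fun y => ?_⟩
  linarith [hg x₀ y]

theorem sub_le_env {P : ℝ → E → ℝ → Prop} {ψ g : E → ℝ} (hψ : SCv P ψ)
    (hg : ∀ x y, g x ≤ g y + ψ (y - x)) (x₀ : E) : g x₀ - ψ 0 ≤ env P g x₀ := by
  obtain ⟨h1, h2⟩ := exists_minorant hψ hg x₀
  have := le_env h1 h2 x₀
  simpa using this

end Pool.Agent.MP_85fd23_an.SR
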