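import Mathlib

/-!
MP_85fd23_an, superreflexive spaces.  From a uniformly smooth norm `N` we get the function
`φ (N z)`, `φ t = t^2 / (2 r) + r / 2` for `t ≤ r`, `φ t = t` for `t ≥ r`, which has a uniform one
sided first order expansion on the whole space.
-/

namespace Pool.Agent.MP_85fd23_an.SR

variable {E : Type*} [NormedAddCommGroup E] [NormedSpace ℝ E]

/-- Huber function. -/
noncomputable def hub (r t : ℝ) : ℝ := if t ≤ r then t ^ 2 / (2 * r) + r / 2 else t

theorem hub_zero {r : ℝ} (hr : 0 < r) : hub r 0 = r / 2 := by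
  unfold hub
  rw [if_pos hr.le]
  simp

theorem le_hub {r : ℝ} (hr : 0 < r) (t : ℝ) : t ≤ hub r t := by
  unfold hub
  split_ifs with h
  · have : t ^ 2 / (2 * r) + r / 2 - t = (t - r) ^ 2 / (2 * r) := by
      field_simp
      ring
    have h2 : 0 ≤ (t - r) ^ 2 / (2 * r) := by positivity
    linarith
  · exact le_rfl

/-- One sided expansion of the Huber function. -/
theorem hub_le {r : ℝ} (hr : 0 < r) (s t : ℝ) :
    hub r s ≤ hub r t + min (t / r) 1 * (s - t) + (s - t) ^ 2 / (2 * r) := by
  have hs1 : hub r s ≤ s ^ 2 / (2 * r) + r / 2 := by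
    unfold hub
    split_ifs with h
    · exact le_rfl
    · have : s ^ 2 / (2 * r) + r / 2 - s = (s - r) ^ 2 / (2 * r) := by
        field_simp
        ring
      have h2 : 0 ≤ (s - r) ^ 2 / (2 * r) := by positivity
      linarith
  by_cases ht : t ≤ r
  · have h1 : min (t / r) 1 = t / r := min_eq_left (by rw [div_le_one hr]; exact ht)
    have h2 : hub r t = t ^ 2 / (2 * r) + r / 2 := by unfold hub; rw [if_pos ht]
    rw [h1, h2]
    have e : t ^ 2 / (2 * r) + r / 2 + t / r * (s - t) + (s - t) ^ 2 / (2 * r) =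
        s ^ 2 / (2 * r) + r / 2 := by
      field_simp
      ring
    linarith
  · push Not at ht
    have h1 : min (t / r) 1 = 1 := min_eq_right (by rw [le_div_iff₀ hr]; linarith)
    have h2 : hub r t = t := by unfold hub; rw [if_neg (not_le.2 ht)]
    rw [h1, h2]
    by_cases hs : s ≤ r
    · have e : s ^ 2 / (2 * r) + r / 2 = s + (r - s) ^ 2 / (2 * r) := by
        field_simp
        ring
      have h3 : (r - s) ^ 2 / (2 * r) ≤ (s - t) ^ 2 / (2 * r) := by
        gcongr ?_ / _
        nlinarith
      linarith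
    · have h3 : hub r s = s := by unfold hub; rw [if_neg hs]
      have h4 : 0 ≤ (s - t) ^ 2 / (2 * r) := by positivity
      linarith

/-- `N` is uniformly smooth. -/
def USm (N : E → ℝ) : Prop :=
  ∀ ε > 0, ∃ δ > 0, ∀ x h, N x = 1 → N h ≤ δ → N (x + h) + N (x - h) ≤ 2 + ε * N h

section

variable {N : E → ℝ} (hadd : ∀ x y, N (x + y) ≤ N x + N y)
  (hsm : ∀ (r : ℝ) x, N (r • x) = |r| * N x) (hpos : ∀ x, x ≠ 0 → 0 < N x)

include hadd hsm hpos

omit hadd in
theorem N_nonneg (x : E) : 0 ≤ N x := by
  rcases eq_or_ne x 0 with rfl | h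
  · have := hsm 0 (0 : E)
    simp only [smul_zero, abs_zero, zero_mul] at this
    exact this.ge
  · exact (hpos x h).le

omit hadd hpos in
theorem N_neg (x : E) : N (-x) = N x := by
  have := hsm (-1) x
  simpa using this

/-- A supporting functional. -/
theorem exists_support (z : E) : ∃ f : E →ₗ[ℝ] ℝ, f z = N z ∧ ∀ x, f x ≤ N x := by
  rcases eq_or_ne z 0 with rfl | hz
  · refine ⟨0, ?_, fun x => ?_⟩
    · have := hsm 0 (0 : E)
      simp only [smul_zero, abs_zero, zero_mul] at this
      simp [this]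
    · simpa using N_nonneg hsm hpos x
  · obtain ⟨P, hP⟩ : ∃ P : E →ₗ.[ℝ] ℝ, P = LinearPMap.mkSpanSingleton z (N z) hz := ⟨_, rfl⟩
    have hdom : P.domain = Submodule.span ℝ {z} := by rw [hP]; rfl
    have happ : ∀ (c : ℝ) (h : c • z ∈ P.domain), P ⟨c • z, h⟩ = c * N z := by
      subst hP
      intro c h
      have := LinearPMap.mkSpanSingleton'_apply (σ := RingHom.id ℝ) z (N z)
        (fun c hc => (smul_eq_zero.1 hc).elim (fun h0 => by simp [h0]) fun h0 => absurd h0 hz) c h
      simpa using this
    obtain ⟨f, hf1, hf2⟩ := exists_extension_of_le_sublinear P N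
      (fun c hc x => by rw [hsm, abs_of_pos hc]) hadd (by
        rintro ⟨x, hx⟩
        have hx' := hx
        rw [hdom] at hx'
        obtain ⟨c, rfl⟩ := Submodule.mem_span_singleton.1 hx'
        rw [happ]
        simp only
        rw [hsm]
        exact mul_le_mul_of_nonneg_right (le_abs_self c) (N_nonneg hsm hpos z))
    refine ⟨f, ?_, hf2⟩
    have hz' : (1 : ℝ) • z ∈ P.domain := by
      rw [hdom]
      exact Submodule.smul_mem _ _ (Submodule.mem_span_singleton_self z)
    have h1 := hf1 ⟨(1 : ℝ) • z, hz'⟩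
    rw [happ] at h1
    simpa using h1

/-- Uniform one sided expansion of the kernel. -/
theorem kernel_taylor (hus : USm N) {r : ℝ} (hr : 0 < r) {ε : ℝ} (hε : 0 < ε) :
    ∃ τ > 0, ∀ z, ∃ f : E →ₗ[ℝ] ℝ, ∀ h, N h ≤ τ →
      hub r (N (z + h)) ≤ hub r (N z) + f h + ε * N h := by
  obtain ⟨δ, hδ, hsmo⟩ := hus (ε / 2) (by linarith)
  set K : ℝ := 2 / (δ * r) + 1 / (2 * r) with hK
  have hKpos : 0 < K := by positivity
  refine ⟨ε / (2 * K), by positivity, fun z => ?_⟩
  obtain ⟨f, hfz, hf⟩ := exists_support hadd hsm hpos z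
  set t := N z with ht
  have ht0 : 0 ≤ t := N_nonneg hsm hpos z
  set d : ℝ := min (t / r) 1 with hd
  have hd0 : 0 ≤ d := le_min (by positivity) zero_le_one
  have hd1 : d ≤ 1 := min_le_right _ _
  have hdr : d ≤ t / r := min_le_left _ _
  refine ⟨d • f, fun h hh => ?_⟩
  rw [LinearMap.smul_apply, smul_eq_mul]
  have hh0 : 0 ≤ N h := N_nonneg hsm hpos h
  set s := N (z + h) with hs
  have hst : s - t ≤ N h := by
    have := hadd z h
    linarith
  have hts : t - s ≤ N h := by
    have := hadd (z + h) (-h)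
    rw [add_neg_cancel_right, N_neg hsm] at this
    linarith
  have hsq : (s - t) ^ 2 ≤ N h ^ 2 := by
    rw [sq_le_sq, abs_of_nonneg hh0, abs_le]
    constructor <;> linarith
  have hub1 := hub_le hr s t
  have hKh : K * N h ≤ ε / 2 := by
    calc K * N h ≤ K * (ε / (2 * K)) := by gcongr
      _ = ε / 2 := by field_simp
  have hsq2 : (s - t) ^ 2 / (2 * r) ≤ N h ^ 2 / (2 * r) := by gcongr
  have hKN : K * N h * N h ≤ ε / 2 * N h := by gcongr
  have hKN' : K * N h * N h = 2 * (N h / δ / r * N h) + N h ^ 2 / (2 * r) := by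
    rw [hK]
    field_simp
  by_cases hc : N h ≤ δ * t
  · -- the expansion of the norm
    have hA : s - t ≤ f h + ε / 2 * N h := by
      rcases eq_or_lt_of_le ht0 with h0 | h0
      · have hh1 : N h = 0 := by
          rw [← h0, mul_zero] at hc
          exact le_antisymm hc hh0
        have h2 : h = 0 := by
          by_contra hne
          exact absurd (hpos h hne) (by rw [hh1]; exact lt_irrefl 0)
        rw [hh1] at hst
        rw [hh1, h2, map_zero]
        linarith
      · have hx1 : N (t⁻¹ • z) = 1 := by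
          rw [hsm, abs_of_pos (inv_pos.2 h0), ← ht, inv_mul_cancel₀ h0.ne']
        have hk1 : N (t⁻¹ • h) = t⁻¹ * N h := by
          rw [hsm, abs_of_pos (inv_pos.2 h0)]
        have h1 := hsmo (t⁻¹ • z) (t⁻¹ • h) hx1 (by
          rw [hk1, inv_mul_le_iff₀ h0]
          linarith)
        rw [← smul_add, ← smul_sub, hsm, hsm, hsm, abs_of_pos (inv_pos.2 h0)] at h1
        have h2 : s + N (z - h) ≤ 2 * t + ε / 2 * N h := by
          have h3 := mul_le_mul_of_nonneg_left h1 h0.le
          have e1 : t * (t⁻¹ * s + t⁻¹ * N (z - h)) = s + N (z - h) := by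
            field_simp
          have e2 : t * (2 + ε / 2 * (t⁻¹ * N h)) = 2 * t + ε / 2 * N h := by
            field_simp
          rw [e1, e2] at h3
          exact h3
        have h4 := hf (z - h)
        rw [map_sub, hfz] at h4
        linarith
    have h5 : d * (s - t) ≤ d * f h + ε / 2 * N h := by
      have h6 := mul_le_mul_of_nonneg_left hA hd0
      have h7 : d * (ε / 2 * N h) ≤ 1 * (ε / 2 * N h) := by gcongr
      linarith
    have h8 : 0 ≤ N h / δ / r * N h := by positivity
    linarith
  · push Not at hc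
    have hdle : d ≤ N h / δ / r := by
      refine hdr.trans ?_
      gcongr
      rw [le_div_iff₀ hδ]
      linarith
    have h1 : d * (s - t) ≤ N h / δ / r * N h := by
      calc d * (s - t) ≤ d * N h := by gcongr
        _ ≤ N h / δ / r * N h := by gcongr
    have h2 : -(N h / δ / r * N h) ≤ d * f h := by
      have h3 := hf (-h)
      rw [map_neg, N_neg hsm] at h3
      have h4 : d * (-f h) ≤ d * N h := by gcongr
      have h5 : d * N h ≤ N h / δ / r * N h := by gcongr
      linarith
    have h9 : 0 ≤ ε / 2 * N h := by positivity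
    linarith

end

end Pool.Agent.MP_85fd23_an.SR
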