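import Pool.Agent.Lib.MP_85fd23_an_SR.Env
import Pool.Agent.Lib.MP_85fd23_an_SR.C1
import Pool.Agent.Lib.MP_85fd23_an_SR.Kernel

/-!
MP_85fd23_an, superreflexive spaces: assembly.
-/

open scoped NNReal

namespace Pool.Agent.MP_85fd23_an.SR

variable {E : Type*} [NormedAddCommGroup E] [NormedSpace ℝ E]

/-- The constraints: `0 ≤ l ≤ 1`, `N h ≤ τ ε`, `β = 2 l (1 - l) ε N h`. -/
def Cst (N : E → ℝ) (τ : ℝ → ℝ) (l : ℝ) (h : E) (β : ℝ) : Prop :=
  0 ≤ l ∧ l ≤ 1 ∧ ∃ ε > 0, N h ≤ τ ε ∧ β = 2 * l * (1 - l) * ε * N h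

/-- A function which has the upper expansion satisfies the constraints. -/
theorem scv_of_taylor {N ψ : E → ℝ} {τ : ℝ → ℝ}
    (hsm : ∀ (r : ℝ) x, N (r • x) = |r| * N x) (h0 : ∀ x, 0 ≤ N x)
    (h : ∀ ε > 0, ∀ z, ∃ f : E →ₗ[ℝ] ℝ, ∀ h, N h ≤ τ ε → ψ (z + h) ≤ ψ z + f h + ε * N h) :
    SCv (Cst N τ) ψ := by
  rintro l k β ⟨hl0, hl1, ε, hε, hk, rfl⟩ x
  obtain ⟨f, hf⟩ := h ε hε x
  have hN1 : N ((1 - l) • k) = (1 - l) * N k := by rw [hsm, abs_of_nonneg (by linarith)]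
  have hN2 : N (-(l • k)) = l * N k := by
    rw [← neg_smul, hsm, abs_neg, abs_of_nonneg hl0]
  have e1 := hf ((1 - l) • k) (by rw [hN1]; nlinarith [h0 k])
  have e2 := hf (-(l • k)) (by rw [hN2]; nlinarith [h0 k])
  rw [hN1, map_smul, smul_eq_mul] at e1
  rw [hN2, map_neg, map_smul, smul_eq_mul, ← sub_eq_add_neg] at e2
  have e3 := mul_le_mul_of_nonneg_left e1 hl0
  have e4 := mul_le_mul_of_nonneg_left e2 (sub_nonneg.2 hl1)
  nlinarith

/-- The approximation. -/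
theorem approx {N : E → ℝ} (hadd : ∀ x y, N (x + y) ≤ N x + N y)
    (hsm : ∀ (r : ℝ) x, N (r • x) = |r| * N x) {a b : ℝ} (ha : 0 < a)
    (hNa : ∀ x, a * ‖x‖ ≤ N x) (hNb : ∀ x, N x ≤ b * ‖x‖) (hus : USm N) {F : E → ℝ} {L : ℝ≥0}
    (hF : LipschitzWith L F) {δ : ℝ} (hδ : 0 < δ) :
    ∃ h : E → ℝ, ContDiff ℝ 1 h ∧ UniformContinuous (fderiv ℝ h) ∧ (∀ x, |h x - F x| ≤ δ) ∧
      ∀ (v : E) (m : ℝ), (∀ x, F (x + v) ≤ F x + m) → ∀ x, h (x + v) ≤ h x + m := by
  have hpos : ∀ x, x ≠ 0 → 0 < N x := fun x hx =>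
    lt_of_lt_of_le (mul_pos ha (norm_pos_iff.2 hx)) (hNa x)
  have hN0 := N_nonneg hsm hpos
  set Λ : ℝ := L / a with hΛ
  have hΛ0 : 0 ≤ Λ := by positivity
  have hLip : ∀ x y, |F x - F y| ≤ L * ‖x - y‖ := by
    intro x y
    have := hF.dist_le_mul x y
    rwa [Real.dist_eq, dist_eq_norm] at this
  set r : ℝ := δ / (Λ + 1) with hr'
  have hr : 0 < r := by positivity
  -- the kernel
  set ψ : E → ℝ := fun z => Λ * hub r (N z) with hψ
  have htay : ∀ ε > 0, ∃ t > 0, ∀ z, ∃ f : E →ₗ[ℝ] ℝ, ∀ h, N h ≤ t →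
      ψ (z + h) ≤ ψ z + f h + ε * N h := by
    intro ε hε
    obtain ⟨t, ht, hf⟩ := kernel_taylor hadd hsm hpos hus hr (ε := ε / (Λ + 1)) (by positivity)
    refine ⟨t, ht, fun z => ?_⟩
    obtain ⟨f, hf⟩ := hf z
    refine ⟨Λ • f, fun h hh => ?_⟩
    have h1 := mul_le_mul_of_nonneg_left (hf h hh) hΛ0
    have h2 : Λ * (ε / (Λ + 1) * N h) ≤ ε * N h := by
      have e : Λ * (ε / (Λ + 1) * N h) = ε * N h * (Λ / (Λ + 1)) := by
        field_simp
      rw [e]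
      have h3 : Λ / (Λ + 1) ≤ 1 := by
        rw [div_le_one (by positivity)]; linarith
      have h4 : 0 ≤ ε * N h := mul_nonneg hε.le (hN0 h)
      nlinarith
    rw [LinearMap.smul_apply, smul_eq_mul]
    simp only [hψ]
    nlinarith
  choose! τ hτ htau using htay
  have hscv : SCv (Cst N τ) ψ := scv_of_taylor hsm hN0 htau
  have hP : ∀ l (h : E) β, Cst N τ l h β → 0 ≤ l ∧ l ≤ 1 := fun l h β hc => ⟨hc.1, hc.2.1⟩
  -- the kernel dominates
  have hψ1 : ∀ z, Λ * N z ≤ ψ z := fun z => mul_le_mul_of_nonneg_left (le_hub hr _) hΛ0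
  have hψ0 : ψ 0 ≤ δ / 2 := by
    have : N 0 = 0 := by
      have := hsm 0 (0 : E)
      simpa using this
    simp only [hψ, this, hub_zero hr]
    rw [hr']
    have e : Λ * (δ / (Λ + 1) / 2) = δ / 2 * (Λ / (Λ + 1)) := by
      field_simp
    rw [e]
    have h3 : Λ / (Λ + 1) ≤ 1 := by
      rw [div_le_one (by positivity)]; linarith
    nlinarith
  have hdom : ∀ g : E → ℝ, (∀ x v, g (x + v) ≤ g x + L * ‖v‖) → ∀ x y, g x ≤ g y + ψ (y - x) := by
    intro g hg x y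
    have h1 := hg y (x - y)
    rw [add_sub_cancel, norm_sub_rev] at h1
    have h2 : (L : ℝ) * ‖y - x‖ ≤ Λ * N (y - x) := by
      rw [hΛ, div_mul_eq_mul_div, le_div_iff₀ ha]
      have := mul_le_mul_of_nonneg_left (hNa (y - x)) L.coe_nonneg
      linarith
    linarith [hψ1 (y - x)]
  -- first step
  have hF1 : ∀ x v, (fun x => -F x) (x + v) ≤ (fun x => -F x) x + L * ‖v‖ := by
    intro x v
    have := hLip (x + v) x
    rw [add_sub_cancel_left] at this
    have := (abs_le.1 this).1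
    simp only
    linarith
  have hne1 : ∃ u : E → ℝ, SCx (Cst N τ) u ∧ ∀ y, u y ≤ (fun x => -F x) y :=
    ⟨_, exists_minorant hscv (hdom (fun x => -F x) hF1) 0⟩
  set F₁ : E → ℝ := fun x => -env (Cst N τ) (fun x => -F x) x with hF₁
  have hF₁v : SCv (Cst N τ) F₁ := scv_neg.2 (env_scx hne1 hP)
  have hF₁a : ∀ x, F x ≤ F₁ x := by
    intro x
    have := env_le hne1 x
    simp only [hF₁]
    linarith
  have hF₁b : ∀ x, F₁ x ≤ F x + δ / 2 := by
    intro x
    have := sub_le_env hscv (hdom (fun x => -F x) hF1) x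
    simp only [hF₁]
    linarith
  have hF₁s : ∀ (v : E) (m : ℝ), (∀ x, F (x + v) ≤ F x + m) → ∀ x, F₁ (x + v) ≤ F₁ x + m := by
    intro v m hm x
    have h1 : ∀ x, (fun x => -F x) (x + -v) ≤ (fun x => -F x) x + m := by
      intro x
      have := hm (x + -v)
      rw [neg_add_cancel_right] at this
      simp only
      linarith
    have := env_shift hne1 h1 (x + v)
    rw [add_neg_cancel_right] at this
    simp only [hF₁]
    linarith
  -- second step
  have hF2 : ∀ x v, F₁ (x + v) ≤ F₁ x + L * ‖v‖ := by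
    intro x v
    refine hF₁s v _ (fun y => ?_) x
    have := hLip (y + v) y
    rw [add_sub_cancel_left] at this
    have := (abs_le.1 this).2
    linarith
  have hne2 : ∃ u : E → ℝ, SCx (Cst N τ) u ∧ ∀ y, u y ≤ F₁ y :=
    ⟨_, exists_minorant hscv (hdom _ hF2) 0⟩
  set G : E → ℝ := env (Cst N τ) F₁ with hGdef
  have hGs : ∀ (v : E) (m : ℝ), (∀ x, F (x + v) ≤ F x + m) → ∀ x, G (x + v) ≤ G x + m :=
    fun v m hm x => env_shift hne2 (hF₁s v m hm) x
  have hGx : SCx (Cst N τ) G := env_scx hne2 hP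
  have hGv : SCv (Cst N τ) G := env_scv hne2 hP hF₁v
  have hGL : ∀ x y, |G x - G y| ≤ L * ‖x - y‖ := by
    have key : ∀ x v, G (x + v) ≤ G x + L * ‖v‖ := by
      intro x v
      refine hGs v _ (fun y => ?_) x
      have := hLip (y + v) y
      rw [add_sub_cancel_left] at this
      have := (abs_le.1 this).2
      linarith
    intro x y
    rw [abs_le]
    have h1 := key x (y - x)
    have h2 := key y (x - y)
    rw [add_sub_cancel] at h1 h2
    rw [norm_sub_rev] at h1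
    constructor <;> linarith
  have hTwo : Two N τ G := by
    intro ε hε h hh l hl0 hl1 x
    have hc : Cst N τ l h (2 * l * (1 - l) * ε * N h) := ⟨hl0, hl1, ε, hε, hh, rfl⟩
    have h1 := hGx l h _ hc x
    have h2 := hGv l h _ hc x
    rw [abs_le]
    constructor <;> linarith
  have hb : 0 ≤ |b| := abs_nonneg b
  have hNb' : ∀ x, N x ≤ |b| * ‖x‖ := fun x =>
    (hNb x).trans (mul_le_mul_of_nonneg_right (le_abs_self b) (norm_nonneg x))
  obtain ⟨hC1, hUC⟩ := contDiff_of_two hsm ha hb hNa hNb' hτ hTwo L.coe_nonneg hGL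
  refine ⟨G, hC1, hUC, fun x => ?_, hGs⟩
  have h1 := env_le hne2 x
  have h2 := sub_le_env hscv (hdom _ hF2) x
  rw [abs_le]
  have h3 := hF₁a x
  have h4 := hF₁b x
  constructor <;> linarith

end Pool.Agent.MP_85fd23_an.SR
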